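import Pool.Agent.Helper77.HY.St

set_option autoImplicit false

namespace Pool.Agent.Helper4.HY.SUB

open Pool.Agent.Helper35.PM Pool.Agent.Helper77.HY

theorem main (hMinor : StMinor) : StSub := by
  intro V W _ G H g hG hg hadj
  refine hMinor V W G H (fun w => {g w}) hG ?_ ?_ ?_
  · intro w
    have : Nonempty ({g w} : Set V) := ⟨⟨g w, rfl⟩⟩
    have : Subsingleton ({g w} : Set V) := by
      constructor
      intro a b
      apply Subtype.ext
      have ha : a.1 = g w := a.2
      have hb : b.1 = g w := b.2
      rw [ha, hb]
    exact SimpleGraph.Connected.of_subsingleton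
  · intro w w' hne
    rw [Set.disjoint_singleton]
    intro h
    exact hne (hg h)
  · intro w w' h
    exact ⟨g w, rfl, g w', rfl, hadj w w' h⟩

end Pool.Agent.Helper4.HY.SUB
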